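import Pool.Agent.Run7.h172.Par.FinA
import Pool.Agent.Run7.h172.Par.Aper

/-!
# Furstenberg systems of the Möbius function and of aperiodic functions `±1`: the correlations of every even order on average over
the solutions of one linear equation (MP_34b97f_an)

Let `u` be the Möbius function or an aperiodic multiplicative function with values `1` and `-1`, let `k ≥ 4` be even, `c_1, …, c_k`
nonzero integers of sum zero and `b ≠ 0`. The correlations of order `k`, averaged over the `h ∈ [1, H]^k` with distinct entries on the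
ONE hyperplane `c_1 h_1 + ⋯ + c_k h_k = b`, tend to zero for almost all `H`, in all Furstenberg systems of `u`; the natural averages
tend to zero for almost all pairs of scales `(N, H)`.
-/

set_option autoImplicit false

namespace Pool.Agent.Results.MP_34b97f_an.EvenOrdersOneHyperplane

open MeasureTheory Filter Topology Finset

/-- the space of two-sided sequences with values in `[-1, 1]` -/
abbrev X : Type := ℤ → Set.Icc (-1 : ℝ) 1

/-- the `n`-th power of the shift -/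
def shift (n : ℤ) (x : X) : X := fun k => x (k + n)

/-- the sequence of the values `u n`, `n ≥ 1`, extended by zero -/
noncomputable def seq (u : ℕ → Set.Icc (-1 : ℝ) 1) : X := fun n => if 1 ≤ n then u n.toNat else ⟨0, by norm_num⟩

/-- `κ` is a Furstenberg system of `u`: a weak-star limit, along some sequence `N j → ∞`, of the
logarithmic averages of the point masses at the shifts of the sequence of values of `u` -/
def IsFurstenbergSystem (u : ℕ → Set.Icc (-1 : ℝ) 1) (κ : Measure X) : Prop :=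
  IsProbabilityMeasure κ ∧ ∃ N : ℕ → ℕ, Tendsto N atTop atTop ∧ ∀ φ : X → ℝ, Continuous φ →
    Tendsto (fun j => (1 / Real.log (N j : ℝ)) * ∑ n ∈ Icc 1 (N j), (1 / (n : ℝ)) * φ (shift (n : ℤ) (seq u)))
      atTop (𝓝 (∫ x, φ x ∂κ))

/-- `e` is multiplicative with values `1` and `-1` (the value at `0` is arbitrary). -/
def IsMultSign (e : ℕ → ℤ) : Prop :=
  (∀ n, e n = 1 ∨ e n = -1) ∧ ∀ m n : ℕ, m.Coprime n → e (m * n) = e m * e n

/-- `e` is aperiodic: the distance to every Dirichlet character is infinite. -/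
def Aperiodic (e : ℕ → ℤ) : Prop := ∀ (q : ℕ) (χ : DirichletCharacter ℂ q), 1 ≤ q →
  ¬ Summable (fun p : Nat.Primes => (1 - ((e p : ℂ) * (starRingEnd ℂ) (χ ((p : ℕ) : ZMod q))).re) / ((p : ℕ) : ℝ))

/-- `u` is the Möbius function or an aperiodic multiplicative function with values `1` and `-1`. -/
def Admissible (u : ℕ → Set.Icc (-1 : ℝ) 1) : Prop :=
  (∀ n, 1 ≤ n → (u n : ℝ) = ((ArithmeticFunction.moebius n : ℤ) : ℝ)) ∨
    ∃ e : ℕ → ℤ, IsMultSign e ∧ Aperiodic e ∧ ∀ n, 1 ≤ n → (u n : ℝ) = (e n : ℝ)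

open Classical in
/-- The tuples `h ∈ [1, H]^k` with distinct entries and `c_1 h_1 + ⋯ + c_k h_k = b`. -/
noncomputable def tuples {k : ℕ} (c : Fin k → ℤ) (b : ℤ) (H : ℕ) : Finset (Fin k → ℕ) :=
  (Fintype.piFinset fun _ : Fin k => Icc 1 H).filter
    (fun h => (∑ i, c i * (h i : ℤ) = b) ∧ Function.Injective h)

/-- The mean of `x(h_1) ⋯ x(h_k)` over these tuples `h` (zero if there is no such tuple). -/
noncomputable def mean {k : ℕ} (c : Fin k → ℤ) (b : ℤ) (H : ℕ) (x : X) : ℝ :=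
  (∑ h ∈ tuples c b H, ∏ i, (x (h i : ℤ) : ℝ)) / ((tuples c b H).card : ℝ)

lemma seq_pos (u : ℕ → Set.Icc (-1 : ℝ) 1) (n h : ℕ) (hn : 1 ≤ n) : shift (n : ℤ) (seq u) (h : ℤ) = u (n + h) := by
  unfold shift seq
  rw [if_pos (by omega)]
  congr 1
  omega

lemma mean_cont {k : ℕ} (c : Fin k → ℤ) (b : ℤ) (H : ℕ) : Continuous (mean c b H) := by
  unfold mean
  refine Continuous.div_const ?_ _
  refine continuous_finsetSum _ fun h _ => continuous_finsetProd _ fun i _ => ?_
  exact continuous_subtype_val.comp (continuous_apply (h i : ℤ))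

/-- **The correlations of even order on average over the solutions of one equation.** Let `k ≥ 4` be even, `c_i` nonzero
integers of sum zero, `b ≠ 0`, and let `u` be the Möbius function or an aperiodic multiplicative function with values `1` and `-1`. For
each `ε > 0` there is `Z₀` such that for all `Z ≥ Z₀`: (1) `∑_{H ≤ Z} (1/H) ∑_{N ≤ Y} (1/N) |(1/N) ∑_{n ≤ N} mean(H, S^n u)| ≤
ε log Y log Z` for all `Y ≥ Z`; (2) `∑_{H ≤ Z} (1/H) |∫ mean(H, x) dκ(x)| ≤ ε log Z` for every Furstenberg system `κ` of `u`. -/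
theorem result (k : ℕ) (hk : 4 ≤ k) (hk2 : Even k) (c : Fin k → ℤ) (hc : ∀ i, c i ≠ 0) (h0 : ∑ i, c i = 0) (b : ℤ)
    (hb : b ≠ 0) (u : ℕ → Set.Icc (-1 : ℝ) 1) (hu : Admissible u) (ε : ℝ) (hε : 0 < ε) :
    ∃ Z₀ : ℕ, ∀ Z : ℕ, Z₀ ≤ Z →
      (∀ Y : ℕ, Z ≤ Y → ∑ H ∈ Icc 1 Z, (1 / (H : ℝ)) * ∑ N ∈ Icc 1 Y, (1 / (N : ℝ)) *
        |(1 / (N : ℝ)) * ∑ n ∈ Icc 1 N, mean c b H (shift (n : ℤ) (seq u))| ≤ ε * (Real.log Y * Real.log Z)) ∧
      ∀ κ : Measure X, IsFurstenbergSystem u κ →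
        ∑ H ∈ Icc 1 Z, (1 / (H : ℝ)) * |∫ x, mean c b H x ∂κ| ≤ ε * Real.log Z := by
  classical
  obtain ⟨g, hnrt, hmul, hgp, hgu⟩ : ∃ g : ℕ → ℂ, Pool.Agent.Run7.h172.Par.S_NRT g ∧ Pool.Agent.Run7.h172.Par.Mul1 g ∧
      (∀ p : ℕ, p.Prime → g p ^ k = 1) ∧ ∀ n : ℕ, 1 ≤ n → g n = ((u n : ℝ) : ℂ) := by
    rcases hu with h | ⟨e, he, ha, h⟩
    · refine ⟨Pool.Agent.Run7.h172.Nls.muC, Pool.Agent.Run7.h172.Par.nrt_mu, Pool.Agent.Run7.h172.Par.mu_mulN.1,
        fun p hp => ?_, fun n hn => ?_⟩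
      · unfold Pool.Agent.Run7.h172.Nls.muC
        rw [ArithmeticFunction.moebius_apply_prime hp]
        push_cast
        exact hk2.neg_one_pow
      · unfold Pool.Agent.Run7.h172.Nls.muC
        rw [h n hn]
        push_cast
        rfl
    · refine ⟨fun n => (e n : ℂ), Pool.Agent.Run7.h172.Par.nrt_aper e
        (by rcases he.1 0 with h | h <;> rw [h] <;> norm_num) (fun n _ => he.1 n) (fun m n _ _ hmn => he.2 m n hmn) ha,
        ⟨fun n => ?_, fun m n hmn => ?_⟩, fun p _ => ?_, fun n hn => ?_⟩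
      · rw [Complex.norm_intCast]
        rcases he.1 n with h | h <;> rw [h] <;> norm_num
      · simp only
        rw [he.2 m n hmn]
        push_cast
        rfl
      · rcases he.1 p with h | h
        · simp only [h]; simp
        · simp only [h]
          push_cast
          exact hk2.neg_one_pow
      · simp only
        rw [h n hn]
        push_cast
        rfl
  obtain ⟨Z₀, hZ₀⟩ := Pool.Agent.Run7.h172.Par.productOneG k (by omega) c hc h0 b hb g hnrt ε hε
  have hP : Pool.Agent.Run7.h172.Par.ProdOne (fun _ : Fin k => g) := by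
    refine ⟨fun i => hmul, fun p hp => ?_⟩
    rw [prod_const, card_univ, Fintype.card_fin]
    exact hgp p hp
  have key : ∀ n H : ℕ, 1 ≤ n → Pool.Agent.Run7.h172.Par.avgC (fun _ : Fin k => g) c b n H =
      ((mean c b H (shift (n : ℤ) (seq u)) : ℝ) : ℂ) := by
    intro n H hn
    unfold Pool.Agent.Run7.h172.Par.avgC mean
    have h4 : Pool.Agent.Run7.h172.Par.sol c b H = tuples c b H := rfl
    rw [h4]
    push_cast
    congr 1
    refine sum_congr rfl fun h _ => prod_congr rfl fun i _ => ?_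
    rw [seq_pos u n (h i) hn]
    exact hgu _ (by omega)
  refine ⟨Z₀ + 2, fun Z hZ => ?_⟩
  have hlZ : 0 ≤ Real.log (Z : ℝ) := Real.log_natCast_nonneg Z
  refine ⟨fun Y hY => ?_, fun μ hμ => ?_⟩
  · have h1 := (hZ₀ (fun _ => g) hP ⟨⟨0, by omega⟩, rfl⟩ Z (by omega) Y hY).1
    refine le_trans (le_of_eq ?_) h1
    refine sum_congr rfl fun H _ => ?_
    congr 1
    refine sum_congr rfl fun N _ => ?_
    congr 1
    rw [sum_congr rfl fun n hn => key n H (mem_Icc.1 hn).1, ← Real.norm_eq_abs, ← Complex.norm_real]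
    congr 1
    push_cast
    rfl
  · obtain ⟨_, N, hN, hlim⟩ := hμ
    have h2 : Tendsto (fun j => ∑ H ∈ Icc 1 Z, (1 / (H : ℝ)) * |(1 / Real.log (N j : ℝ)) * ∑ n ∈ Icc 1 (N j),
        (1 / (n : ℝ)) * mean c b H (shift (n : ℤ) (seq u))|) atTop
        (𝓝 (∑ H ∈ Icc 1 Z, (1 / (H : ℝ)) * |∫ x, mean c b H x ∂μ|)) :=
      tendsto_finsetSum _ fun H _ => ((hlim _ (mean_cont c b H)).abs).const_mul _
    refine le_of_tendsto h2 ?_
    filter_upwards [hN.eventually_ge_atTop (Z + 2)] with j hj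
    have h3 := (hZ₀ (fun _ => g) hP ⟨⟨0, by omega⟩, rfl⟩ Z (by omega) (N j) (by omega)).2
    have hlN : 0 < Real.log (N j : ℝ) := Real.log_pos (by exact_mod_cast (by omega : 1 < N j))
    have h4 : ∀ H, |(1 / Real.log (N j : ℝ)) * ∑ n ∈ Icc 1 (N j), (1 / (n : ℝ)) * mean c b H (shift (n : ℤ) (seq u))| =
        ‖∑ n ∈ Icc 1 (N j), (1 / (n : ℂ)) * Pool.Agent.Run7.h172.Par.avgC (fun _ : Fin k => g) c b n H‖ / Real.log (N j : ℝ) := by
      intro H
      have h5 : ∑ n ∈ Icc 1 (N j), (1 / (n : ℂ)) * Pool.Agent.Run7.h172.Par.avgC (fun _ : Fin k => g) c b n H =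
          ((∑ n ∈ Icc 1 (N j), (1 / (n : ℝ)) * mean c b H (shift (n : ℤ) (seq u)) : ℝ) : ℂ) := by
        push_cast
        exact sum_congr rfl fun n hn => by rw [key n H (mem_Icc.1 hn).1]
      rw [h5, Complex.norm_real, Real.norm_eq_abs, abs_mul, abs_of_pos (by positivity : 0 < 1 / Real.log (N j : ℝ))]
      ring
    simp only [h4]
    have h6 : ∑ H ∈ Icc 1 Z, (1 / (H : ℝ)) *
        (‖∑ n ∈ Icc 1 (N j), (1 / (n : ℂ)) * Pool.Agent.Run7.h172.Par.avgC (fun _ : Fin k => g) c b n H‖ / Real.log (N j : ℝ)) =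
        (∑ H ∈ Icc 1 Z, (1 / (H : ℝ)) * ‖∑ n ∈ Icc 1 (N j), (1 / (n : ℂ)) * Pool.Agent.Run7.h172.Par.avgC (fun _ : Fin k => g) c b n H‖) /
          Real.log (N j : ℝ) := by
      rw [sum_div]
      exact sum_congr rfl fun H _ => by ring
    rw [h6, div_le_iff₀ hlN]
    refine h3.trans (le_of_eq ?_)
    ring

end Pool.Agent.Results.MP_34b97f_an.EvenOrdersOneHyperplane
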